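import Mathlib

set_option autoImplicit false

namespace Pool.Agent.Results.MP_718be6_lc.Counter

inductive Term
  | var : ℕ → Term
  | zero : Term
  | succ : Term → Term

def Term.vars : Term → Finset ℕ
  | .var n => {n}
  | .zero => ∅
  | .succ t => t.vars

def Term.inst (σ : ℕ → ℕ) : Term → ℕ
  | .var n => σ n
  | .zero => 0
  | .succ t => t.inst σ + 1

abbrev Atom := Fin 5 × Term
abbrev HB := Fin 5 × ℕ

def ground (σ : ℕ → ℕ) (a : Atom) : HB := (a.1, a.2.inst σ)

structure Rule where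
  head : Atom
  pos : List Atom
  neg : List Atom

def InternalVariableFree (P : List Rule) : Prop :=
  ∀ r ∈ P, ∀ a ∈ r.pos ++ r.neg, a.2.vars ⊆ r.head.2.vars

def ReductModel (P : List Rule) (I J : HB → Fin 3) : Prop :=
  ∀ r ∈ P, ∀ σ : ℕ → ℕ, ∀ x : Fin 3, (∀ b ∈ r.pos, x ≤ J (ground σ b)) →
    (∀ c ∈ r.neg, x ≤ (I (ground σ c)).rev) → x ≤ J (ground σ r.head)

def StablePartial (P : List Rule) (I : HB → Fin 3) : Prop := IsLeast {J | ReductModel P I J} I

def LStable (P : List Rule) (I : HB → Fin 3) : Prop :=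
  StablePartial P I ∧ ¬ ∃ J, StablePartial P J ∧ {a | J a = 1} ⊂ {a | I a = 1}

def P0 : List Rule :=
  [⟨(0, .var 0), [], [(1, .var 0)]⟩, ⟨(1, .var 0), [], [(0, .var 0)]⟩,
   ⟨(2, .var 0), [(0, .var 0)], []⟩, ⟨(2, .var 0), [(2, .succ (.var 0))], []⟩,
   ⟨(3, .var 0), [(0, .var 0)], []⟩, ⟨(3, .succ (.var 0)), [(3, .var 0)], []⟩,
   ⟨(4, .var 0), [(3, .var 0)], [(4, .var 0)]⟩, ⟨(4, .var 0), [], [(4, .var 0), (2, .zero)]⟩]

theorem model_iff (I J : HB → Fin 3) : ReductModel P0 I J ↔ ∀ n,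
    (I (1, n)).rev ≤ J (0, n) ∧ (I (0, n)).rev ≤ J (1, n) ∧ J (0, n) ≤ J (2, n) ∧
    J (2, n + 1) ≤ J (2, n) ∧ J (0, n) ≤ J (3, n) ∧ J (3, n) ≤ J (3, n + 1) ∧
    min (J (3, n)) (I (4, n)).rev ≤ J (4, n) ∧ min (I (4, n)).rev (I (2, 0)).rev ≤ J (4, n) := by
  simp only [ReductModel, P0, List.forall_mem_cons, List.not_mem_nil, IsEmpty.forall_iff,
    implies_true, and_true, ground, Term.inst, forall_true_left]
  constructor
  · rintro ⟨a, b, c, d, e, f, g, h⟩ n
    exact ⟨a (fun _ => n) _ le_rfl, b (fun _ => n) _ le_rfl, c (fun _ => n) _ le_rfl,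
      d (fun _ => n) _ le_rfl, e (fun _ => n) _ le_rfl, f (fun _ => n) _ le_rfl,
      g (fun _ => n) _ (min_le_left _ _) (min_le_right _ _),
      h (fun _ => n) _ ⟨min_le_left _ _, min_le_right _ _⟩⟩
  · intro h
    exact ⟨fun σ x k => k.trans (h _).1, fun σ x k => k.trans (h _).2.1,
      fun σ x k => k.trans (h _).2.2.1, fun σ x k => k.trans (h _).2.2.2.1,
      fun σ x k => k.trans (h _).2.2.2.2.1, fun σ x k => k.trans (h _).2.2.2.2.2.1,
      fun σ x k l => (le_min k l).trans (h _).2.2.2.2.2.2.1,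
      fun σ x k => (le_min k.1 k.2).trans (h _).2.2.2.2.2.2.2⟩

def M (N : ℕ) (a : HB) : Fin 3 :=
  ![if a.2 = N then 2 else 0, if a.2 = N then 0 else 2, if a.2 ≤ N then 2 else 0,
    if N ≤ a.2 then 2 else 0, if N ≤ a.2 then 1 else 0] a.1

theorem M_stable (N : ℕ) : StablePartial P0 (M N) := by
  refine ⟨(model_iff _ _).2 fun n => ?_, fun J hJ => ?_⟩
  · simp only [M, Matrix.cons_val, Nat.zero_le, if_true]
    refine ⟨?_, ?_, ?_, ?_, ?_, ?_, ?_, ?_⟩ <;> split_ifs <;> first | decide | omega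
  · replace hJ := (model_iff _ _).1 hJ
    have a : 2 ≤ J (0, N) := by simpa [M] using (hJ N).1
    have q : ∀ k n, n + k = N → 2 ≤ J (2, n) := fun k => by
      induction k with
      | zero => rintro n rfl; exact a.trans (hJ _).2.2.1
      | succ k ih => exact fun n h => (ih (n + 1) (by omega)).trans (hJ _).2.2.2.1
    have r : ∀ k, 2 ≤ J (3, N + k) := fun k => by
      induction k with
      | zero => exact a.trans (hJ _).2.2.2.2.1
      | succ k ih => exact ih.trans (hJ _).2.2.2.2.2.1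
    rintro ⟨p, n⟩
    fin_cases p <;> simp only [M, Matrix.cons_val, Fin.zero_eta, Fin.mk_one, Fin.reduceFinMk] <;>
      split_ifs with c <;> try exact Fin.zero_le _
    · exact c ▸ a
    · simpa [M, c] using (hJ n).2.1
    · exact q (N - n) n (by omega)
    · simpa [Nat.add_sub_cancel' c] using r (n - N)
    · have := r (n - N)
      rw [Nat.add_sub_cancel' c] at this
      refine le_trans ?_ (hJ n).2.2.2.2.2.2.1
      simp only [M, Matrix.cons_val, if_pos c]
      exact le_min (le_trans (by decide) this) (by decide)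

theorem tail {I : HB → Fin 3} (h : StablePartial P0 I) : ∃ N, ∀ n, N ≤ n → I (4, n) = 1 := by
  have m := (model_iff _ _).1 h.1
  have c2 : ∀ n, I (4, n) ≠ 2 := fun n k => by
    have := h.2 ((model_iff I (Function.update I (4, n) 0)).2 fun j => by
      by_cases c : j = n
      · subst c
        simpa [k] using (fun ⟨a, b, c, d, e, f, _⟩ => ⟨a, b, c, d, e, f⟩) (m j)
      · simpa [c] using m j) (4, n)
    simp [k] at this
  have fin : ∀ x y : Fin 3, x ≠ 2 → 1 ≤ y → (min y x.rev ≤ x ∨ min x.rev y ≤ x) → x = 1 := by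
    decide
  by_cases e : ∃ N, I (0, N) ≠ 0
  · obtain ⟨N, hN⟩ := e
    have r : ∀ k, 1 ≤ I (3, N + k) := fun k => by
      induction k with
      | zero => exact (Fin.one_le_of_ne_zero hN).trans (m _).2.2.2.2.1
      | succ k ih => exact ih.trans (m _).2.2.2.2.2.1
    refine ⟨N, fun n hn => fin _ _ (c2 n) ?_ (.inl (m n).2.2.2.2.2.2.1)⟩
    simpa [Nat.add_sub_cancel' hn] using r (n - N)
  · push Not at e
    have hm : ReductModel P0 I fun a => if a.1 = 2 then 0 else I a := (model_iff _ _).2 fun j => by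
      obtain ⟨a, b, -, -, f⟩ := m j
      exact ⟨a, b, (e j).le, le_rfl, f⟩
    have : I ≤ fun a => if a.1 = 2 then 0 else I a := h.2 hm
    replace this := this (2, 0)
    refine ⟨0, fun n _ => fin _ _ (c2 n) ?_ (.inr (m n).2.2.2.2.2.2.2)⟩
    have z : I (2, 0) = 0 := by simpa using this
    simp [z]

theorem result : ∃ P : List Rule, InternalVariableFree P ∧ ¬ ∃ I, LStable P I := by
  refine ⟨P0, by unfold InternalVariableFree; decide, ?_⟩
  rintro ⟨I, h1, h2⟩
  obtain ⟨N, hN⟩ := tail h1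
  refine h2 ⟨M (N + 1), M_stable _, ?_, fun k => ?_⟩
  · rintro ⟨p, n⟩ h
    fin_cases p <;>
      simp only [M, Matrix.cons_val, Fin.zero_eta, Fin.mk_one, Fin.reduceFinMk,
        Set.mem_setOf_eq] at h <;> split_ifs at h with c <;> try exact absurd h (by decide)
    exact hN n (by omega)
  · have := k (hN N le_rfl)
    simp [M] at this

end Pool.Agent.Results.MP_718be6_lc.Counter
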